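import Pool.Agent.H60.CohG

set_option autoImplicit false

namespace Pool.Agent.Results.MP_943f09_an.AllRanges

/-- `c(N,n)`: the least coherence of `N` unit vectors in `ℝⁿ`. -/
noncomputable def coherence (N n : ℕ) : ℝ :=
  sInf {m : ℝ | ∃ Φ : Fin N → EuclideanSpace ℝ (Fin n),
          (∀ i, ‖Φ i‖ = 1) ∧ ∀ i j, i ≠ j → |inner ℝ (Φ i) (Φ j)| ≤ m}

/-- `d_n(B_1^N, ℓ_∞^N)`: the Kolmogorov `n`-width of the octahedron in the max norm. -/
noncomputable def width (N n : ℕ) : ℝ :=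
  sInf {r : ℝ | ∃ L : Submodule ℝ (Fin N → ℝ), Module.finrank ℝ L ≤ n ∧
          ∀ x : Fin N → ℝ, ∑ i, |x i| ≤ 1 → ∃ y ∈ L, ‖x - y‖ ≤ r}

/-- Comparison of the least coherence with the width of the octahedron in all ranges: absolute
constants near the diagonal, constants depending on `K` for `N ≤ n^K` and on `a` for `N ≥ e^(an)`,
and at most `126 √(1 + log n)` for all `N > n`. -/
theorem result :
    (∀ N n : ℕ, 1 ≤ n → n < N → 3 * N ≤ 4 * n →
      Real.sqrt ((N : ℝ) - n) / N ≤ width N n ∧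
      coherence N n ≤ 6 * (Real.sqrt ((N : ℝ) - n) / N)) ∧
    (∀ K N n : ℕ, 1 ≤ n → n < N → N ≤ n ^ K →
      coherence N n ≤ (24 * K + 6) * width N n) ∧
    (∀ a : ℝ, 0 < a → ∃ C : ℝ, 0 < C ∧ ∀ N n : ℕ, 1 ≤ n → n < N →
      Real.exp (a * n) ≤ N → coherence N n ≤ C * width N n) ∧
    (∀ N n : ℕ, 1 ≤ n → n < N →
      coherence N n ≤ 126 * Real.sqrt (1 + Real.log n) * width N n) ∧
    (∀ N n k : ℕ, 1 ≤ k → k ≤ n → n < N → 2 * (6 * (n : ℝ) / k) ^ k ≤ N →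
      coherence N n ≤ 15 * Real.sqrt (Real.log (2 * N) / k) * width N n) :=
  ⟨fun N n hn hnN h => ⟨Pool.Agent.H60.CohG.width_ge (n := n) N le_rfl (by omega),
      Pool.Agent.H60.CohG.near0 hnN h⟩,
    Pool.Agent.H60.CohG.result1.2.1, Pool.Agent.H60.CohG.exp_range,
    Pool.Agent.H60.CohG.log_range,
    fun _ _ _ hk hkn hnN h => Pool.Agent.H60.CohG.interp hk hkn hnN h⟩

end Pool.Agent.Results.MP_943f09_an.AllRanges
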